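import Mathlib

/-!
# Collatz's original permutation: finite cycles are sparse

Helper file for MP_9010c3: the positive integers whose whole trajectory stays below `Y` number at
most `4 Y ^ (75 / 76)`.
-/

set_option autoImplicit false

open Finset

namespace Pool.Agent.H71.CP

/-- the map, through its residue classes -/
structure IsC (f : ℕ → ℕ) : Prop where
  pos : ∀ x, 1 ≤ x → 1 ≤ f x
  c0 : ∀ x, 1 ≤ x → x % 3 = 0 → 3 * f x = 2 * x
  c1 : ∀ x, 1 ≤ x → x % 3 = 1 → 3 * f x + 1 = 4 * x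
  c2 : ∀ x, 1 ≤ x → x % 3 = 2 → 3 * f x = 4 * x + 1

theorem isC {f : ℕ → ℕ} (h0 : ∀ n, 1 ≤ n → f (3 * n) = 2 * n)
    (h1 : ∀ n, 1 ≤ n → f (3 * n - 1) = 4 * n - 1) (h2 : ∀ n, 1 ≤ n → f (3 * n - 2) = 4 * n - 3) :
    IsC f := by
  have c0 : ∀ x, 1 ≤ x → x % 3 = 0 → 3 * f x = 2 * x := by
    intro x hx hr
    obtain ⟨n, rfl⟩ : ∃ n, x = 3 * n := ⟨x / 3, by omega⟩
    have := h0 n (by omega)
    omega
  have c1 : ∀ x, 1 ≤ x → x % 3 = 1 → 3 * f x + 1 = 4 * x := by
    intro x hx hr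
    obtain ⟨n, hn, rfl⟩ : ∃ n, 1 ≤ n ∧ x = 3 * n - 2 := ⟨(x + 2) / 3, by omega, by omega⟩
    have := h2 n hn
    omega
  have c2 : ∀ x, 1 ≤ x → x % 3 = 2 → 3 * f x = 4 * x + 1 := by
    intro x hx hr
    obtain ⟨n, hn, rfl⟩ : ∃ n, 1 ≤ n ∧ x = 3 * n - 1 := ⟨(x + 1) / 3, by omega, by omega⟩
    have := h1 n hn
    omega
  refine ⟨?_, c0, c1, c2⟩
  intro x hx
  have h3 : x % 3 = 0 ∨ x % 3 = 1 ∨ x % 3 = 2 := by omega
  rcases h3 with h | h | h
  · have := c0 x hx h; omega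
  · have := c1 x hx h; omega
  · have := c2 x hx h; omega

variable {f : ℕ → ℕ}

theorem IsC.inj (hf : IsC f) : ∀ x y, 1 ≤ x → 1 ≤ y → f x = f y → x = y := by
  intro x y hx hy he
  have h3 : x % 3 = 0 ∨ x % 3 = 1 ∨ x % 3 = 2 := by omega
  have h4 : y % 3 = 0 ∨ y % 3 = 1 ∨ y % 3 = 2 := by omega
  rcases h3 with h | h | h <;> rcases h4 with h' | h' | h'
  · have := hf.c0 x hx h; have := hf.c0 y hy h'; omega
  · have := hf.c0 x hx h; have := hf.c1 y hy h'; omega
  · have := hf.c0 x hx h; have := hf.c2 y hy h'; omega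
  · have := hf.c1 x hx h; have := hf.c0 y hy h'; omega
  · have := hf.c1 x hx h; have := hf.c1 y hy h'; omega
  · have := hf.c1 x hx h; have := hf.c2 y hy h'; omega
  · have := hf.c2 x hx h; have := hf.c0 y hy h'; omega
  · have := hf.c2 x hx h; have := hf.c1 y hy h'; omega
  · have := hf.c2 x hx h; have := hf.c2 y hy h'; omega

/-- equal residues modulo `3` and images congruent modulo `3 ^ k` -/
theorem IsC.cong (hf : IsC f) (k x y : ℕ) (hx : 1 ≤ x) (hy : 1 ≤ y) (hr : x % 3 = y % 3)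
    (he : f x ≡ f y [MOD 3 ^ k]) : x ≡ y [MOD 3 ^ (k + 1)] := by
  have hd : ((3 : ℤ) ^ k) ∣ (f y : ℤ) - f x := by
    have := (Nat.modEq_iff_dvd).1 he
    exact_mod_cast this
  have key : ∃ c : ℤ, (c = 2 ∨ c = 4) ∧ 3 * ((f y : ℤ) - f x) = c * ((y : ℤ) - x) := by
    have h3 : x % 3 = 0 ∨ x % 3 = 1 ∨ x % 3 = 2 := by omega
    rcases h3 with h | h | h
    · have a1 := hf.c0 x hx h
      have a2 := hf.c0 y hy (hr ▸ h)
      exact ⟨2, Or.inl rfl, by omega⟩
    · have a1 := hf.c1 x hx h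
      have a2 := hf.c1 y hy (hr ▸ h)
      exact ⟨4, Or.inr rfl, by omega⟩
    · have a1 := hf.c2 x hx h
      have a2 := hf.c2 y hy (hr ▸ h)
      exact ⟨4, Or.inr rfl, by omega⟩
  obtain ⟨c, hc, hce⟩ := key
  have hd2 : ((3 : ℤ) ^ (k + 1)) ∣ c * ((y : ℤ) - x) := by
    rw [← hce, pow_succ']
    exact mul_dvd_mul_left 3 hd
  have hcop : IsCoprime ((3 : ℤ) ^ (k + 1)) c := by
    apply IsCoprime.pow_left
    rcases hc with rfl | rfl
    · exact ⟨1, -1, by norm_num⟩
    · exact ⟨-1, 1, by norm_num⟩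
  have hd3 := hcop.dvd_of_dvd_mul_left hd2
  rw [Nat.modEq_iff_dvd]
  exact_mod_cast hd3

/-- the weight of a residue -/
noncomputable def w (r : ℕ) : ℝ := if r = 0 then Real.sqrt (3 / 2) else Real.sqrt (3 / 4)

theorem w_pos (r : ℕ) : 0 < w r := by
  unfold w
  split_ifs <;> positivity

/-- the sum of the weights -/
noncomputable def lam : ℝ := w 0 + w 1 + w 2

theorem lam_pos : 0 < lam := by
  have := w_pos 0
  have := w_pos 1
  have := w_pos 2
  unfold lam
  linarith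

theorem sum_w : ∑ r ∈ range 3, w r = lam := by
  simp [Finset.sum_range_succ, lam]

/-- weights along a trajectory -/
noncomputable def W (f : ℕ → ℕ) (k x : ℕ) : ℝ := ∏ j ∈ range k, w (f^[j] x % 3)

theorem W_pos (k x : ℕ) : 0 < W f k x := Finset.prod_pos fun _ _ => w_pos _

theorem W_succ (k x : ℕ) : W f (k + 1) x = w (x % 3) * W f k (f x) := by
  unfold W
  rw [Finset.prod_range_succ']
  simp only [Function.iterate_succ_apply, Function.iterate_zero, id_eq]
  rw [mul_comm]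

theorem block (hf : IsC f) : ∀ (k : ℕ) (B : Finset ℕ), (∀ x ∈ B, 1 ≤ x) →
    (∀ x ∈ B, ∀ y ∈ B, x ≡ y [MOD 3 ^ k] → x = y) → ∑ x ∈ B, W f k x ≤ lam ^ k := by
  intro k
  induction k with
  | zero =>
    intro B _ hB
    have h1 : B.card ≤ 1 := by
      rw [Finset.card_le_one]
      intro x hx y hy
      exact hB x hx y hy (by simp [Nat.modEq_one])
    have h2 : ∑ x ∈ B, W f 0 x = (B.card : ℝ) := by
      simp [W]
    rw [h2, pow_zero]
    exact_mod_cast h1
  | succ k ih =>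
    intro B hpos hB
    have h1 : ∑ x ∈ B, W f (k + 1) x =
        ∑ r ∈ range 3, ∑ x ∈ B with x % 3 = r, W f (k + 1) x :=
      (Finset.sum_fiberwise_of_maps_to (fun x _ => by
        rw [Finset.mem_range]; omega) _).symm
    rw [h1, pow_succ', ← sum_w, Finset.sum_mul]
    apply Finset.sum_le_sum
    intro r _
    have h2 : ∀ x ∈ B.filter (fun x => x % 3 = r), W f (k + 1) x = w r * W f k (f x) := by
      intro x hx
      rw [W_succ, (Finset.mem_filter.1 hx).2]
    rw [Finset.sum_congr rfl h2, ← Finset.mul_sum]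
    apply mul_le_mul_of_nonneg_left _ (w_pos r).le
    have hinj : Set.InjOn f (B.filter (fun x => x % 3 = r) : Finset ℕ) := by
      intro x hx y hy he
      have hx' := Finset.mem_filter.1 (Finset.mem_coe.1 hx)
      have hy' := Finset.mem_filter.1 (Finset.mem_coe.1 hy)
      exact hf.inj x y (hpos x hx'.1) (hpos y hy'.1) he
    have h3 : ∑ x ∈ B with x % 3 = r, W f k (f x) =
        ∑ y ∈ (B.filter (fun x => x % 3 = r)).image f, W f k y :=
      (Finset.sum_image (fun x hx y hy he => hinj hx hy he)).symm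
    rw [h3, sum_w]
    apply ih
    · intro y hy
      obtain ⟨x, hx, rfl⟩ := Finset.mem_image.1 hy
      exact hf.pos x (hpos x (Finset.mem_filter.1 hx).1)
    · intro y hy y' hy' he
      obtain ⟨x, hx, rfl⟩ := Finset.mem_image.1 hy
      obtain ⟨x', hx', rfl⟩ := Finset.mem_image.1 hy'
      have hx := Finset.mem_filter.1 hx
      have hx' := Finset.mem_filter.1 hx'
      have h4 := hf.cong k x x' (hpos x hx.1) (hpos x' hx'.1) (by rw [hx.2, hx'.2]) he
      rw [hB x hx.1 x' hx'.1 h4]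

theorem sum_le (hf : IsC f) (k Y : ℕ) (hY : Y < 3 ^ (k + 1)) (S : Finset ℕ)
    (hS : ∀ x ∈ S, 1 ≤ x ∧ x ≤ Y) : ∑ x ∈ S, W f k x ≤ 3 * lam ^ k := by
  have h1 : ∑ x ∈ S, W f k x = ∑ q ∈ range 3, ∑ x ∈ S with x / 3 ^ k = q, W f k x :=
    (Finset.sum_fiberwise_of_maps_to (fun x hx => by
      rw [Finset.mem_range, Nat.div_lt_iff_lt_mul (by positivity)]
      have := (hS x hx).2
      rw [pow_succ'] at hY
      omega) _).symm
  rw [h1]
  have h2 : ∀ q ∈ range 3, ∑ x ∈ S with x / 3 ^ k = q, W f k x ≤ lam ^ k := by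
    intro q _
    apply block hf
    · intro x hx
      exact (hS x (Finset.mem_filter.1 hx).1).1
    · intro x hx y hy he
      have hx' := (Finset.mem_filter.1 hx).2
      have hy' := (Finset.mem_filter.1 hy).2
      have h3 := Nat.div_add_mod x (3 ^ k)
      have h4 := Nat.div_add_mod y (3 ^ k)
      have h5 : x % 3 ^ k = y % 3 ^ k := he
      rw [← h3, ← h4, hx', hy', h5]
  calc _ ≤ ∑ q ∈ range 3, lam ^ k := Finset.sum_le_sum h2
    _ = 3 * lam ^ k := by simp

/-- sums over an invariant set -/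
theorem sum_inv (hf : IsC f) (S : Finset ℕ) (hS : ∀ x ∈ S, 1 ≤ x) (hm : ∀ x ∈ S, f x ∈ S)
    (g : ℕ → ℝ) : ∑ x ∈ S, g (f x) = ∑ x ∈ S, g x := by
  have hinj : Set.InjOn f (S : Set ℕ) := fun x hx y hy he => hf.inj x y (hS x hx) (hS y hy) he
  have him : S.image f = S := by
    apply Finset.eq_of_subset_of_card_le
    · intro y hy
      obtain ⟨x, hx, rfl⟩ := Finset.mem_image.1 hy
      exact hm x hx
    · rw [Finset.card_image_of_injOn hinj]
  have h3 : ∑ x ∈ S, g (f x) = ∑ y ∈ S.image f, g y :=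
    (Finset.sum_image (fun x hx y hy he => hinj hx hy he)).symm
  rw [h3, him]

theorem sum_inv_iter (hf : IsC f) (S : Finset ℕ) (hS : ∀ x ∈ S, 1 ≤ x) (hm : ∀ x ∈ S, f x ∈ S)
    (g : ℕ → ℝ) (j : ℕ) : ∑ x ∈ S, g (f^[j] x) = ∑ x ∈ S, g x := by
  induction j with
  | zero => rfl
  | succ j ih =>
    simp only [Function.iterate_succ_apply]
    rw [sum_inv hf S hS hm (fun x => g (f^[j] x)), ih]

theorem log_w (hf : IsC f) (x : ℕ) (hx : 1 ≤ x) :
    (Real.log x - Real.log (f x)) / 2 - 1 / (6 * x) ≤ Real.log (w (x % 3)) := by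
  have hxr : (1 : ℝ) ≤ x := by exact_mod_cast hx
  have hfx : (1 : ℝ) ≤ f x := by exact_mod_cast hf.pos x hx
  have hx6 : 0 < 1 / (6 * (x : ℝ)) := by positivity
  have h3 : x % 3 = 0 ∨ x % 3 = 1 ∨ x % 3 = 2 := by omega
  rcases h3 with h | h | h
  · have a1 := hf.c0 x hx h
    have a2 : (3 : ℝ) * f x = 2 * x := by exact_mod_cast a1
    have a3 : Real.log (w (x % 3)) = (Real.log x - Real.log (f x)) / 2 := by
      rw [h, w, if_pos rfl, Real.log_sqrt (by norm_num), ← Real.log_div (by positivity)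
        (by positivity)]
      congr 2
      rw [div_eq_div_iff (by norm_num) (by positivity)]
      linarith
    rw [a3]
    linarith
  · have a1 := hf.c1 x hx h
    have a2 : (3 : ℝ) * f x + 1 = 4 * x := by exact_mod_cast a1
    have a3 : Real.log (w (x % 3)) = Real.log (3 / 4) / 2 := by
      rw [h, w, if_neg (by norm_num), Real.log_sqrt (by norm_num)]
    have a4 : Real.log x - Real.log (f x) = Real.log (3 / 4) + Real.log (4 * x / (4 * x - 1)) := by
      rw [← Real.log_div (by positivity) (by positivity), ← Real.log_mul (by norm_num)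
        (by
          have : (0 : ℝ) < 4 * x - 1 := by linarith
          positivity)]
      congr 1
      have h5 : (4 * (x : ℝ) - 1) ≠ 0 := by
        have : (0 : ℝ) < 4 * x - 1 := by linarith
        positivity
      have h6 : (f x : ℝ) ≠ 0 := by positivity
      have h7 : (4 * (x : ℝ) - 1) = 3 * f x := by linarith
      rw [h7]
      field_simp
    have a5 : Real.log (4 * x / (4 * x - 1)) ≤ 1 / (3 * x) := by
      have hp : (0 : ℝ) < 4 * x - 1 := by linarith
      have h8 := Real.log_le_sub_one_of_pos (show (0 : ℝ) < 4 * x / (4 * x - 1) by positivity)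
      have h9 : 4 * (x : ℝ) / (4 * x - 1) - 1 = 1 / (4 * x - 1) := by
        field_simp
        ring
      have h10 : 1 / (4 * (x : ℝ) - 1) ≤ 1 / (3 * x) := by
        apply one_div_le_one_div_of_le (by positivity)
        linarith
      linarith
    rw [a3, a4]
    have h11 : 1 / (6 * (x : ℝ)) = (1 / (3 * x)) / 2 := by
      field_simp
      norm_num
    rw [h11]
    linarith
  · have a1 := hf.c2 x hx h
    have a2 : (3 : ℝ) * f x = 4 * x + 1 := by exact_mod_cast a1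
    have a3 : Real.log (w (x % 3)) = Real.log (3 / 4) / 2 := by
      rw [h, w, if_neg (by norm_num), Real.log_sqrt (by norm_num)]
    have a4 : Real.log x - Real.log (f x) ≤ Real.log (3 / 4) := by
      rw [← Real.log_div (by positivity) (by positivity)]
      apply Real.log_le_log (by positivity)
      rw [div_le_div_iff₀ (by positivity) (by norm_num)]
      linarith
    rw [a3]
    linarith

theorem lam_le : lam ≤ 29569 / 10000 := by
  unfold lam w
  rw [if_pos rfl, if_neg (by norm_num), if_neg (by norm_num)]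
  have h1 : Real.sqrt (3 / 2) ≤ 12248 / 10000 := by
    rw [Real.sqrt_le_left (by norm_num)]
    norm_num
  have h2 : Real.sqrt (3 / 4) ≤ 17321 / 20000 := by
    rw [Real.sqrt_le_left (by norm_num)]
    norm_num
  linarith

theorem lam_pow : lam ^ 76 ≤ 3 ^ 75 := by
  calc lam ^ 76 ≤ (29569 / 10000 : ℝ) ^ 76 := pow_le_pow_left₀ lam_pos.le lam_le 76
    _ ≤ 3 ^ 75 := by norm_num

theorem lam_le_rpow : lam ≤ (3 : ℝ) ^ (75 / 76 : ℝ) := by
  have h1 : lam = (lam ^ (76 : ℕ)) ^ (1 / 76 : ℝ) := by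
    rw [← Real.rpow_natCast, ← Real.rpow_mul lam_pos.le]
    norm_num
  have h2 : ((3 : ℝ) ^ (75 : ℕ)) ^ (1 / 76 : ℝ) = (3 : ℝ) ^ (75 / 76 : ℝ) := by
    rw [← Real.rpow_natCast, ← Real.rpow_mul (by norm_num)]
    norm_num
  rw [h1, ← h2]
  exact Real.rpow_le_rpow (pow_pos lam_pos 76).le lam_pow (by norm_num)

theorem lam_pow_le (k Y : ℕ) (h : 3 ^ k ≤ Y) : lam ^ k ≤ (Y : ℝ) ^ (75 / 76 : ℝ) := by
  calc lam ^ k ≤ ((3 : ℝ) ^ (75 / 76 : ℝ)) ^ k := pow_le_pow_left₀ lam_pos.le lam_le_rpow k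
    _ = ((3 : ℝ) ^ k) ^ (75 / 76 : ℝ) := by
      rw [← Real.rpow_natCast, ← Real.rpow_mul (by norm_num), ← Real.rpow_natCast,
        ← Real.rpow_mul (by norm_num), mul_comm]
    _ ≤ (Y : ℝ) ^ (75 / 76 : ℝ) := by
      apply Real.rpow_le_rpow (by positivity) _ (by norm_num)
      exact_mod_cast h

theorem small (k Y : ℕ) (hY : 1 ≤ Y) (h : 3 ^ k ≤ Y) :
    (k : ℝ) / 6 * (1 + Real.log Y) ≤ (Y : ℝ) ^ (75 / 76 : ℝ) := by
  have hYr : (1 : ℝ) ≤ Y := by exact_mod_cast hY
  have hL : 0 ≤ Real.log Y := Real.log_nonneg hYr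
  have h3 : (1 : ℝ) ≤ Real.log 3 := by
    rw [Real.le_log_iff_exp_le (by norm_num)]
    have := Real.exp_one_lt_d9
    linarith
  have hk : (k : ℝ) ≤ Real.log Y := by
    have h4 : Real.log ((3 : ℝ) ^ k) ≤ Real.log Y := by
      apply Real.log_le_log (by positivity)
      exact_mod_cast h
    rw [Real.log_pow] at h4
    nlinarith [(Nat.cast_nonneg k : (0 : ℝ) ≤ k)]
  have h5 : (Y : ℝ) ^ (75 / 76 : ℝ) = Real.exp (Real.log Y * (75 / 76)) := by
    rw [Real.rpow_def_of_pos (by linarith)]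
  have h6 := Real.quadratic_le_exp_of_nonneg (show 0 ≤ Real.log Y * (75 / 76) by positivity)
  rw [h5]
  refine le_trans ?_ h6
  have h7 : (k : ℝ) / 6 * (1 + Real.log Y) ≤ Real.log Y / 6 * (1 + Real.log Y) := by
    apply mul_le_mul_of_nonneg_right _ (by linarith)
    linarith
  nlinarith [mul_nonneg hL hL]

theorem inv_card (hf : IsC f) (Y : ℕ) (S : Finset ℕ) (hS : ∀ x ∈ S, 1 ≤ x ∧ x ≤ Y)
    (hm : ∀ x ∈ S, f x ∈ S) : (S.card : ℝ) ≤ 4 * (Y : ℝ) ^ (75 / 76 : ℝ) := by
  rcases Nat.eq_zero_or_pos Y with rfl | hY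
  · have : S = ∅ := by
      rw [Finset.eq_empty_iff_forall_notMem]
      intro x hx
      have := hS x hx
      omega
    rw [this]
    simp only [Finset.card_empty, Nat.cast_zero]
    positivity
  obtain ⟨k, hk⟩ : ∃ k, Nat.log 3 Y = k := ⟨_, rfl⟩
  have hk1 : 3 ^ k ≤ Y := by
    rw [← hk]; exact Nat.pow_log_le_self 3 (by omega)
  have hk2 : Y < 3 ^ (k + 1) := by
    rw [← hk]; exact Nat.lt_pow_succ_log_self (by norm_num) Y
  have hpos : ∀ x ∈ S, 1 ≤ x := fun x hx => (hS x hx).1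
  have h1 := sum_le hf k Y hk2 S hS
  have h2 : ∑ x ∈ S, (1 + Real.log (W f k x)) ≤ ∑ x ∈ S, W f k x := by
    apply Finset.sum_le_sum
    intro x _
    have := Real.log_le_sub_one_of_pos (W_pos (f := f) k x)
    linarith
  have h3 : ∑ x ∈ S, (1 + Real.log (W f k x)) =
      S.card + k * ∑ x ∈ S, Real.log (w (x % 3)) := by
    rw [Finset.sum_add_distrib]
    simp only [Finset.sum_const, nsmul_eq_mul, mul_one]
    congr 1
    have h4 : ∀ x ∈ S, Real.log (W f k x) = ∑ j ∈ range k, Real.log (w (f^[j] x % 3)) := by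
      intro x _
      unfold W
      rw [Real.log_prod (fun j _ => (w_pos _).ne')]
    rw [Finset.sum_congr rfl h4, Finset.sum_comm]
    rw [Finset.sum_congr rfl (fun j _ =>
      sum_inv_iter hf S hpos hm (fun x => Real.log (w (x % 3))) j)]
    simp
  have h5 : -(1 / 6) * (1 + Real.log Y) ≤ ∑ x ∈ S, Real.log (w (x % 3)) := by
    have h6 : ∑ x ∈ S, ((Real.log x - Real.log (f x)) / 2 - 1 / (6 * x)) ≤
        ∑ x ∈ S, Real.log (w (x % 3)) :=
      Finset.sum_le_sum fun x hx => log_w hf x (hpos x hx)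
    refine le_trans ?_ h6
    have h7 : ∑ x ∈ S, ((Real.log x - Real.log (f x)) / 2 - 1 / (6 * x)) =
        -(1 / 6) * ∑ x ∈ S, (1 / (x : ℝ)) := by
      have h8 := sum_inv hf S hpos hm (fun x => Real.log x)
      rw [Finset.sum_sub_distrib, ← Finset.sum_div, Finset.sum_sub_distrib, h8, sub_self,
        zero_div, zero_sub, Finset.mul_sum, ← Finset.sum_neg_distrib]
      apply Finset.sum_congr rfl
      intro x _
      field_simp
    rw [h7]
    have h9 : ∑ x ∈ S, (1 / (x : ℝ)) ≤ 1 + Real.log Y := by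
      have h10 : ∑ x ∈ S, (1 / (x : ℝ)) ≤ ∑ x ∈ Finset.Icc 1 Y, (1 / (x : ℝ)) := by
        apply Finset.sum_le_sum_of_subset_of_nonneg
        · intro x hx
          rw [Finset.mem_Icc]
          exact hS x hx
        · intro x _ _
          positivity
      have h11 : (∑ x ∈ Finset.Icc 1 Y, (1 / (x : ℝ))) = ((harmonic Y : ℚ) : ℝ) := by
        rw [harmonic_eq_sum_Icc]
        push_cast
        apply Finset.sum_congr rfl
        intro x _
        rw [one_div]
      rw [h11] at h10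
      exact h10.trans (harmonic_le_one_add_log Y)
    linarith
  have h12 := lam_pow_le k Y hk1
  have h13 := small k Y hY hk1
  have h14 : (k : ℝ) * (-(1 / 6) * (1 + Real.log Y)) ≤ k * ∑ x ∈ S, Real.log (w (x % 3)) :=
    mul_le_mul_of_nonneg_left h5 (Nat.cast_nonneg k)
  nlinarith [h1, h2, h3, h12, h13, h14]

theorem main (hf : IsC f) (Y : ℕ) :
    ({n : ℕ | 1 ≤ n ∧ ∀ j, f^[j] n ≤ Y}.ncard : ℝ) ≤ 4 * (Y : ℝ) ^ (75 / 76 : ℝ) := by
  classical
  obtain ⟨S, hS⟩ : ∃ S : Finset ℕ, (S : Set ℕ) = {n : ℕ | 1 ≤ n ∧ ∀ j, f^[j] n ≤ Y} := by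
    have hfin : {n : ℕ | 1 ≤ n ∧ ∀ j, f^[j] n ≤ Y}.Finite :=
      (Set.finite_Iic Y).subset fun n hn => hn.2 0
    exact ⟨hfin.toFinset, by simp⟩
  rw [← hS, Set.ncard_coe_finset]
  have hmem : ∀ x, x ∈ S ↔ 1 ≤ x ∧ ∀ j, f^[j] x ≤ Y := by
    intro x
    rw [← Finset.mem_coe, hS]
    rfl
  apply inv_card hf Y S
  · intro x hx
    have := (hmem x).1 hx
    exact ⟨this.1, this.2 0⟩
  · intro x hx
    have := (hmem x).1 hx
    rw [hmem]
    refine ⟨hf.pos x this.1, fun j => ?_⟩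
    rw [← Function.iterate_succ_apply]
    exact this.2 (j + 1)

end Pool.Agent.H71.CP
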